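import Mathlib
import Pool.Agent.Run7.h740.GX2

/-!
# Generic cuspidal representations of `GL_4` over a number field and their exterior squares

Let `K` be a number field and `Π` a unitary cuspidal automorphic representation of `GL_4` over `K` (every such `Π` is
globally generic), for instance the functorial lift of a generic cuspidal representation of `GSp_4`, unramified
outside the finite set `S` of places, with Satake parameters `α_{1,v}, ..., α_{4,v}`. The exterior square `Λ² Π` is
an automorphic representation of `GL_6` (Kim, Henniart); let `m` be the order of the pole of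
`L(s, Λ² Π × Λ² Π~)` at `s = 1`, so `m = 1` if `Λ² Π` is cuspidal and `m = 2` for the lifts of generic representations
of `PGSp_4` of general type. Write `u(B) = B + 1 / B`. We show:

(1) **The upper Dirichlet density of the places `v` at which no parameter `α_{i,v}` has absolute value one is at most
    `m / 4`;** if in addition some `|α_{i,v}| ≥ B` is required, it is at most `m / (4 (u(B) - 1)²)`. So at the places
    outside a set of upper density `m / 4` at least two of the four parameters are as predicted by the Ramanujan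
    conjecture.
(2) For `B > 1` the upper density of the places with `max_i |α_{i,v}| ≥ B` is at most
    `((u(B) + √m) / (B² + 1 / B²))²`. This is smaller than `1` for `B ≥ 1.73` (if `m = 1`) and for `B ≥ 1.89` (if
    `m = 2`), and `O(1 / B²)` for `B → ∞`.
(3) For every `ε > 0` there is `C` such that for all `x ≥ 1` and `0 ≤ θ ≤ 1 / 2` at most `C x^{1 - 2 θ + ε}` places
    with `N v ≤ x` have some `|α_{i,v}| ≥ (N v)^θ`.
(4) For all `x ≥ 1` and `0 ≤ θ ≤ 1 / 4` at most `C x^{1 - 4 θ + ε}` places with `N v ≤ x` are such that no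
    `|α_{i,v}|` is in the open interval from `(N v)^{-θ}` to `(N v)^θ`.

Here `(N v)^{9/22}` is the known bound for all `|α_{i,v}|`, so in (3) the interesting `θ` are those below `9/22`.

Statements about the density of a set `P` of places are in the following form (`N v` is `qq v`): for all `σ > 1` we
have `∑_{v ∈ P} (N v)^{-σ} ≤ δ ∑_v (N v)^{-σ} + C`.

The proof. If `α_{1,v}` and `α_{2,v} = 1 / conj α_{1,v}` are not on the unit circle and `c = α_{1,v} + α_{2,v}`, then
`c tr(Π_v) - tr(Λ² Π_v) = c² - α_{1,v} α_{2,v} - α_{3,v} α_{4,v}`, and the last two products have absolute value one. So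
`|c| |tr(Π_v)| + |tr(Λ² Π_v)| ≥ |c|² - 2`, and this is used together with the second moments `1` and `m` of the two
traces. If neither of the two pairs is on the unit circle, `|tr(Λ² Π_v)| ≥ |c| |c'| - 2 ≥ 2`.
-/

set_option autoImplicit false

namespace Pool.Agent.Results.MP_08cfa9_nt.ExteriorSquareGL4

open NumberField IsDedekindDomain
open Pool.Agent.TH861.GL3 (PL qq)
open Run7.h740.GX (WithExteriorSquare)
open Run7.h911.RC (Z)

/-- **Generic cuspidal representations of `GL_4` and their exterior squares.** Here `qq v` is the norm of the place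
`v`, the places in `PL S` are those outside `S`, and `Z S σ = ∑_v (N v)^{-σ}` is the sum over these. -/
theorem result {K : Type*} [Field K] [NumberField K] {S : Finset (HeightOneSpectrum (𝓞 K))} {m : ℕ} (hm : 0 < m)
    {α : PL S → Fin 4 → ℂ} (h : WithExteriorSquare m α) :
    (∀ B : ℝ, 1 ≤ B → ∃ C : ℝ, ∀ σ : ℝ, 1 < σ →
      ∑' v : PL S, (open Classical in
        if (∀ i, ‖α v i‖ ≠ 1) ∧ ∃ i, B ≤ ‖α v i‖ then (qq v.1 : ℝ) ^ (-σ) else 0) ≤
        m / (4 * (B + B⁻¹ - 1) ^ 2) * Z S σ + C) ∧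
    (∀ B : ℝ, 1 < B → ∃ C : ℝ, ∀ σ : ℝ, 1 < σ →
      ∑' v : PL S, (open Classical in if ∃ i, B ≤ ‖α v i‖ then (qq v.1 : ℝ) ^ (-σ) else 0) ≤
        ((B + B⁻¹ + √(m : ℝ)) / (B ^ 2 + (B ^ 2)⁻¹)) ^ 2 * Z S σ + C) ∧
    (∀ ε : ℝ, 0 < ε → ∃ C : ℝ, ∀ x θ : ℝ, 1 ≤ x → 0 ≤ θ →
      (θ ≤ 1 / 2 → (({v : PL S | (qq v.1 : ℝ) ≤ x ∧ ∃ i, (qq v.1 : ℝ) ^ θ ≤ ‖α v i‖}.ncard : ℕ) : ℝ) ≤
        C * x ^ (1 - 2 * θ + ε)) ∧
      (θ ≤ 1 / 4 → (({v : PL S | (qq v.1 : ℝ) ≤ x ∧
          ∀ i, (qq v.1 : ℝ) ^ θ ≤ ‖α v i‖ ∨ ‖α v i‖ ≤ ((qq v.1 : ℝ) ^ θ)⁻¹}.ncard : ℕ) : ℝ) ≤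
        C * x ^ (1 - 4 * θ + ε))) := by
  refine ⟨fun B hB => Run7.h740.GX.density_off h hB, fun B hB => Run7.h740.GX.density_large h hm hB,
    fun ε hε => ?_⟩
  obtain ⟨C1, h1⟩ := Run7.h740.GX.count h hε
  obtain ⟨C2, h2⟩ := Run7.h740.GX.count_off h hε
  refine ⟨max C1 C2, fun x θ hx hθ => ⟨fun h3 => (h1 x θ hx hθ h3).trans ?_,
    fun h3 => (h2 x θ hx hθ h3).trans ?_⟩⟩
  · have : 0 ≤ x ^ (1 - 2 * θ + ε) := by positivity
    exact mul_le_mul_of_nonneg_right (le_max_left _ _) this
  · have : 0 ≤ x ^ (1 - 4 * θ + ε) := by positivity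
    exact mul_le_mul_of_nonneg_right (le_max_right _ _) this

end Pool.Agent.Results.MP_08cfa9_nt.ExteriorSquareGL4
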