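import Mathlib
import Pool.Agent.Run7.h988.RS.GSp3

/-!
# The generalized Ramanujan conjecture for generic representations of `GSp(4)`: half of the parameters at half of the places

Let `K` be a number field and `π_1, ..., π_m` unitary globally generic cuspidal automorphic representations of `GSp_4(A_K)`,
unramified outside `S`. At `v ∉ S` the Satake parameter of `π_i` is given by four complex numbers
`α_0, ω/α_0, α_1, ω/α_1`, `ω` the value of the central character; `π_{i,v}` is tempered iff the four numbers have
absolute value 1. By unitarity the number of those on the unit circle is 0, 2 or 4, and if it is 0, then the four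
numbers, divided by a square root of `ω`, are either real, or not real and of the form `z, 1/z, z̄, 1/z̄`.

Suppose that the lifts `Π_i` to `GL_4` and `Π'_i` to `GL_5` are cuspidal and pairwise inequivalent. We show for the
upper Dirichlet densities of the places `v ∉ S`, for every `i`:

* exactly two of the four parameters of `π_i` are on the unit circle: at most `5/7`;
* none of them is: at most `1/2` (so at half of the places at least half of the parameters have absolute value 1);
* none of them is and they are real up to a square root of `ω`: at most `1/10`;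
* none of them is and they are positive real numbers up to a square root of `ω`: at most `1/26`;

and for all the representations together

* for every `i` no parameter of `π_i` is on the unit circle, and they are nonreal or positive (up to a root of `ω`):
  at most `1/(m+1)`;
* for every `i` no parameter of `π_i` is on the unit circle, and they are positive (up to a root of `ω`): at most
  `1/(25 m + 1)`.

So only finitely many `π_i` can have no parameter on the unit circle and be of the nonreal or positive kind at all
places of a given set of positive upper density.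

The structure `GenericGSp` (`Pool/Agent/Run7/h988/RS/GSp3.lean`) lists what is used, all of it is known: unitarity; the
partial Rankin-Selberg `L`-functions of the lifts converge absolutely for `Re s > 1` and are holomorphic and nonzero at
`s = 1`, except for a simple pole of `L(s, Π × Π~)` (Jacquet, Piatetski-Shapiro, Shalika, Shahidi). The lift to
`GL_4` is due to Asgari and Shahidi, the one to `GL_5` then follows from the exterior square of Kim.

Method. Let `a` and `c` be the traces in the representations of dimension 4 and 5. The functions `1`, `a`, `c` are orthonormal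
with respect to the Dirichlet mean, and positive semidefinite quadratic forms in them are nonnegative also at the
prime powers. If no parameter is on the circle, then `c ≥ 1` or `c ≤ -3`, so that `|1 + c|² ≥ 4` with the mean 2; if
they are real, `c ≥ 5` or `c ≤ -3`, so that `|1 - 3c|² ≥ 100` with the mean 10; if exactly two parameters are on
the circle, then `|7.8625 - 5 c|² + 96 |a|² ≥ 256`, with the mean `182.82`. The bounds `1/2`, `1/10`, `1/26`, `1/(m+1)`,
`1/(25m+1)` are optimal for this method.
-/

set_option autoImplicit false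

namespace Pool.Agent.Results.MP_08cfa9_nt.GenericGSpFour

open NumberField IsDedekindDomain
open Pool.Agent.TH861.GL3 (PL qq)
open Run7.h988.RS (GenericGSp onCircle RealType PosType)

open scoped Classical in
/-- The upper Dirichlet density of the places `v ∉ S` with `P v` is at most `δ`; `PL S` is the set of the finite places
outside `S` and `qq v` the norm of `v`. -/
def DensityAtMost {K : Type*} [Field K] [NumberField K] {S : Finset (HeightOneSpectrum (𝓞 K))}
    (P : PL S → Prop) (δ : ℝ) : Prop :=
  ∃ C : ℝ, ∀ σ : ℝ, 1 < σ → ∑' v : PL S, (if P v then (qq v.1 : ℝ) ^ (-σ) else 0) ≤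
    δ * ∑' v : PL S, (qq v.1 : ℝ) ^ (-σ) + C

section

variable {K : Type*} [Field K] [NumberField K] {S : Finset (HeightOneSpectrum (𝓞 K))} {m : ℕ}
  {α : Fin m → PL S → Fin 2 → ℂ} {ω : Fin m → PL S → ℂ}

open Run7.h988.RS (sd sp)

theorem dens_one (h : GenericGSp α ω) (i : Fin m) (s t q : ℝ) (hq : 0 ≤ q) {δ M : ℝ} (hM : 0 < M)
    (hδ : s ^ 2 + t ^ 2 + q ≤ δ * M) (P : PL S → Prop)
    (hP : ∀ (v : PL S) (c : ℝ), sd (α i v) (ω i v) 1 = c → P v → M ≤ (s + t * c) ^ 2 +
      q * ‖sp (α i v) (ω i v) 1‖ ^ 2) : DensityAtMost P δ := by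
  classical
  obtain ⟨C, hC⟩ := Run7.h988.RS.one_bound h i s t q hq hM hδ P hP
  refine ⟨C, fun σ hσ => ?_⟩
  exact hC σ hσ

theorem dens_all (h : GenericGSp α ω) (s : ℝ) (b : Fin m → ℝ) {δ M : ℝ}
    (hM : 0 < M) (hδ : s ^ 2 + ∑ i, b i ^ 2 ≤ δ * M) (P : PL S → Prop)
    (hP : ∀ v, P v → M ≤ ‖(s : ℂ) + ∑ i, (b i : ℂ) * sd (α i v) (ω i v) 1‖ ^ 2) :
    DensityAtMost P δ := by
  classical
  obtain ⟨C, hC⟩ := Run7.h988.RS.gsp_bound h s b (fun _ => 0) (fun _ => le_rfl) hM
    (by simpa using hδ) P (fun v hv => by simpa using hP v hv)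
  refine ⟨C, fun σ hσ => ?_⟩
  exact hC σ hσ

end

/-- **Generic representations of `GSp(4)`.** -/
theorem result {K : Type*} [Field K] [NumberField K] {S : Finset (HeightOneSpectrum (𝓞 K))} {m : ℕ}
    {α : Fin m → PL S → Fin 2 → ℂ} {ω : Fin m → PL S → ℂ} (h : GenericGSp α ω) :
    (∀ i, DensityAtMost (fun v => onCircle (α i v) (ω i v) = 2) (5 / 7)) ∧
    (∀ i, DensityAtMost (fun v => onCircle (α i v) (ω i v) = 0) (1 / 2)) ∧
    (∀ i, DensityAtMost (fun v => onCircle (α i v) (ω i v) = 0 ∧ RealType (α i v) (ω i v)) (1 / 10)) ∧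
    (∀ i, DensityAtMost (fun v => onCircle (α i v) (ω i v) = 0 ∧ PosType (α i v) (ω i v)) (1 / 26)) ∧
    DensityAtMost (fun v => ∀ i, onCircle (α i v) (ω i v) = 0 ∧
      (¬ RealType (α i v) (ω i v) ∨ PosType (α i v) (ω i v))) (1 / (m + 1)) ∧
    DensityAtMost (fun v => ∀ i, onCircle (α i v) (ω i v) = 0 ∧ PosType (α i v) (ω i v))
      (1 / (25 * m + 1)) := by
  classical
  obtain ⟨c, hc⟩ := Run7.h988.RS.gsp_real h
  have same : ∀ (i : Fin m) (v : PL S) (c' : ℝ), Run7.h988.RS.sd (α i v) (ω i v) 1 = c' → c' = c i v :=
    fun i v c' h' => by exact_mod_cast h'.symm.trans (hc i v).1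
  refine ⟨fun i => ?_, fun i => ?_, fun i => ?_, fun i => ?_, ?_, ?_⟩
  · refine dens_one h i 7.8625 (-5) 96 (by norm_num) (M := 256) (by norm_num)
      (by norm_num) _ (fun v c' h' hv => ?_)
    rw [same i v c' h']
    have := (hc i v).2.2.2.2.2 hv
    convert this using 3
    ring
  · refine dens_one h i 1 1 0 le_rfl (M := 4) (by norm_num)
      (by norm_num) _ (fun v c' h' hv => ?_)
    rw [same i v c' h', zero_mul, add_zero]
    rcases (hc i v).2.1 hv with h1 | h1 <;> nlinarith
  · refine dens_one h i 1 (-3) 0 le_rfl (M := 100) (by norm_num)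
      (by norm_num) _ (fun v c' h' hv => ?_)
    rw [same i v c' h', zero_mul, add_zero]
    rcases (hc i v).2.2.1 hv.1 hv.2 with h1 | h1 <;> nlinarith
  · refine dens_one h i 1 5 0 le_rfl (M := 26 ^ 2) (by norm_num)
      (by norm_num) _ (fun v c' h' hv => ?_)
    rw [same i v c' h', zero_mul, add_zero]
    have h1 := (hc i v).2.2.2.1 hv.1 hv.2
    nlinarith
  · have hm : (0 : ℝ) ≤ m := by positivity
    refine dens_all h 1 (fun _ => 1)
      (M := ((m : ℝ) + 1) ^ 2) (by positivity) ?_ _ (fun v hv => ?_)
    · simp only [one_pow, Finset.sum_const, Finset.card_univ, Fintype.card_fin, nsmul_eq_mul,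
        mul_one]
      apply le_of_eq
      field_simp
      ring
    · have e : (((1 : ℝ) : ℂ) + ∑ i, (((fun _ => (1 : ℝ)) i : ℝ) : ℂ) * Run7.h988.RS.sd (α i v) (ω i v) 1) =
          ((1 + ∑ i, c i v : ℝ) : ℂ) := by
        push_cast
        congr 1
        refine Finset.sum_congr rfl fun i _ => ?_
        rw [(hc i v).1, one_mul]
      rw [e, Complex.norm_real, Real.norm_eq_abs, sq_abs]
      have h1 : ∑ i : Fin m, (1 : ℝ) ≤ ∑ i, c i v := by
        refine Finset.sum_le_sum fun i _ => ?_
        obtain ⟨h2, h3⟩ := hv i
        rcases h3 with h3 | h3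
        · exact (hc i v).2.2.2.2.1 h2 h3
        · linarith [(hc i v).2.2.2.1 h2 h3]
      rw [Finset.sum_const, Finset.card_univ, Fintype.card_fin, nsmul_eq_mul, mul_one] at h1
      nlinarith
  · have hm : (0 : ℝ) ≤ m := by positivity
    refine dens_all h 1 (fun _ => 5)
      (M := (25 * (m : ℝ) + 1) ^ 2) (by positivity) ?_ _ (fun v hv => ?_)
    · simp only [one_pow, Finset.sum_const, Finset.card_univ, Fintype.card_fin, nsmul_eq_mul]
      apply le_of_eq
      field_simp
      ring
    · have e : (((1 : ℝ) : ℂ) + ∑ i, (((fun _ => (5 : ℝ)) i : ℝ) : ℂ) * Run7.h988.RS.sd (α i v) (ω i v) 1) =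
          ((1 + ∑ i, 5 * c i v : ℝ) : ℂ) := by
        push_cast
        congr 1
        refine Finset.sum_congr rfl fun i _ => ?_
        rw [(hc i v).1]
      rw [e, Complex.norm_real, Real.norm_eq_abs, sq_abs]
      have h1 : ∑ i : Fin m, (25 : ℝ) ≤ ∑ i, 5 * c i v := by
        refine Finset.sum_le_sum fun i _ => ?_
        obtain ⟨h2, h3⟩ := hv i
        linarith [(hc i v).2.2.2.1 h2 h3]
      rw [Finset.sum_const, Finset.card_univ, Fintype.card_fin, nsmul_eq_mul] at h1
      nlinarith

end Pool.Agent.Results.MP_08cfa9_nt.GenericGSpFour
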