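import Mathlib
import Pool.Agent.Run7.h716.SK.Init

/-!
# Generic cuspidal representations of `GL_n` over number fields: exceptional places, uniformly, and in short intervals

Let `K` be a number field, `n ≥ 2`, `N = n² [K : ℚ]`, and let `Π` be a unitary cuspidal automorphic representation of
`GL_n` over `K` (such a `Π` is globally generic); any ramification and any archimedean components are allowed. Let `S` be
the finite set of the ramified finite places, `α_{i,v}`, `v ∉ S`, the Satake parameters, `θ_v = max_i |log_{Nv} |α_{i,v}||`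
(so `Π_v` is tempered iff `θ_v = 0`), `Q²` the conductor of the completed `L`-function `L(s, Π × Π~)` (with the power of the
discriminant), `∏_{j ≤ N} Γ_ℝ(s + κ_j)` its Gamma factor and `|κ_j| ≤ M`. We show, for every `ε > 0`:

* for all `y ≥ 1` and `θ ≥ 0` at most `A (1 + log (Q M)) y^{⌊n/2⌋ (1 - 2θ) + ε}` places `v ∉ S` with `N v ≤ y` have
  `θ_v ≥ θ`, where `A` depends on `K`, `n`, `ε` only;
* for every `k ≥ 1`, all `y` with `y^k ≥ Q M^{(N + 2)/2}`, all `1 ≤ H ≤ y` and `θ ≥ 0` at most

  `A y^{⌊n/2⌋ (1 - 2θ) + ε} max(H / y, (y^k / Q)^{-2/(N + 1)})^{1/k}`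

  places `v ∉ S` with `y < N v ≤ y + H` have `θ_v ≥ θ`, where `A` depends on `K`, `n`, `ε`, `k` only.

So almost all places up to a power of the **logarithm** of the analytic conductor, and, for fixed `Π` (`k = 1`), almost all
places in **every** interval `(y, y + H]` of length `H ≥ y^{1 - 2/(N+1)}`, `y` large, have `θ_v < ε` if `n = 2, 3` and
`θ_v < 1/4 + ε` if `n = 4, 5` (if `H y^{-1 + ⌊n/2⌋(1-2θ) + ε}` is smaller than the number of the places of the interval); for
large `k` one gets a saving over the trivial bound in short intervals as soon as `y` exceeds a fixed power of the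
analytic conductor, however small. For a globally generic cuspidal representation of a classical group with the
generic lift `Π_1 ⊞ ... ⊞ Π_r` one may apply this to the `Π_i`.

The structure `Rep` lists what is used of `Π`. All of it is known for every unitary cuspidal `Π`: the local components are
unitary; the bounds of Jacquet and Shalika, `|α_{i,v}| < (N v)^{1/2}`, `|β_{i,v}| < N v` for the reciprocal roots of
`L(s, Π_v × Π~_v)`, `v ∈ S`, and `Re κ_j > -1`; `∑_i β_{i,v}^k ≥ 0`, `v ∈ S` (that is, the logarithm of the local factor has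
nonnegative coefficients); absolute convergence for `Re s > 1`; `L(s, Π × Π~)` is entire except for a simple pole at
`s = 1`, of polynomial growth in vertical strips (not assumed to be uniform in `Π`), and satisfies its functional equation.

The proof. Let `L(s, Π × Π~) = ∑_l c_l e^{-s Λ_l}`, `c_l ≥ 0` (all Euler factors, expanded by the exponential series). For
`0 < η ≤ 1` the sum `∑ c_l exp(-(log X - Λ_l)² / 4η²)`, minus `η e^{η² - 1}` times the one for `η = 1` (which removes the pole),
is an integral over `Re s = 2`; it is shifted to `Re s = -σ`, where by the functional equation the integrand is a product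
of Gamma factors times an absolutely convergent series. The second derivative test bounds the integral of each term by
`C (M^{N/2 + 1} + η^{-(N+1)/2})^{1+ε}`, uniformly also for large real parts of the `κ_j`. With
`L(1 + σ, Π × Π~) ≤ C (Q M)^ε` (from the functional equation and convexity) this gives
`∑_{Λ_l ∈ [log X, log X + η]} c_l ≤ A η X^{1+ε}` for `X ≥ Q M^{(N+2)/2}`, `η ≥ (X/Q)^{-2/(N+1)}`. Among the terms are the
products `∏ |s_j(v_i)|² / (k! j^k)`, `s_j(v) = ∑_i α_{i,v}^j`, over `k` places `v_i` of the interval. If some parameter at `v`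
has absolute value `R ≥ 2`, then `|s_j(v)| ≥ R^j / (2n)` for some `j ≤ n/2` (Newton's identities and unitarity).
-/

set_option autoImplicit false

namespace Pool.Agent.Results.MP_08cfa9_nt.PlacesInShortIntervals

open NumberField IsDedekindDomain
open Pool.Agent.TH861.GL3 (PL)
open Run7.h716.SK (Rep excK excL)

/-- **Exceptional places, uniformly, and in short intervals.** Here `excL α θ y` is the set of the places `v ∉ S` with
`N v ≤ y` and `θ ≤ |log_{N v} |α_{i,v}||` for some `i`, and `excK α θ y H` is the set of those with `y < N v ≤ y + H`. -/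
theorem result.{u} (K : Type u) [Field K] [NumberField K] {n : ℕ} (hn : 2 ≤ n) {ε : ℝ} (hε : 0 < ε) :
    (∃ A : ℝ, 0 < A ∧ ∀ (S : Finset (HeightOneSpectrum (𝓞 K))) (α : PL S → Fin n → ℂ)
      (β : HeightOneSpectrum (𝓞 K) → Fin (n ^ 2) → ℂ) (κ : Fin (n ^ 2 * Module.finrank ℚ K) → ℂ) (Q : ℝ),
      Rep α β κ Q → ∀ M : ℝ, 1 ≤ M → (∀ j, ‖κ j‖ ≤ M) → ∀ y : ℝ, 1 ≤ y → ∀ θ : ℝ, 0 ≤ θ →
        ((excL α θ y).ncard : ℝ) ≤ A * (1 + Real.log (Q * M)) * y ^ (((n / 2 : ℕ) : ℝ) * (1 - 2 * θ) + ε)) ∧
    ∀ k : ℕ, 1 ≤ k → ∃ A : ℝ, 0 < A ∧ ∀ (S : Finset (HeightOneSpectrum (𝓞 K))) (α : PL S → Fin n → ℂ)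
      (β : HeightOneSpectrum (𝓞 K) → Fin (n ^ 2) → ℂ) (κ : Fin (n ^ 2 * Module.finrank ℚ K) → ℂ) (Q : ℝ),
      Rep α β κ Q → ∀ M : ℝ, 1 ≤ M → (∀ j, ‖κ j‖ ≤ M) → ∀ y H : ℝ, 1 ≤ y → 1 ≤ H → H ≤ y →
        Q * M ^ ((((n ^ 2 * Module.finrank ℚ K : ℕ) : ℝ) + 2) / 2) ≤ y ^ k → ∀ θ : ℝ, 0 ≤ θ →
        ((excK α θ y H).ncard : ℝ) ≤ A * y ^ (((n / 2 : ℕ) : ℝ) * (1 - 2 * θ) + ε) *
          (max (H / y) ((y ^ k / Q) ^ (-(2 / (((n ^ 2 * Module.finrank ℚ K : ℕ) : ℝ) + 1))))) ^ (1 / (k : ℝ)) := by
  have hN : 1 ≤ n ^ 2 * Module.finrank ℚ K := by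
    have h1 : 0 < Module.finrank ℚ K := Module.finrank_pos
    have h2 : 0 < n ^ 2 := by positivity
    exact Nat.mul_pos h2 h1
  exact ⟨Run7.h716.SK.init_count K hn (n ^ 2) (n ^ 2 * Module.finrank ℚ K) hε,
    fun k hk => Run7.h716.SK.count K hn (n ^ 2) hN hε hk⟩

end Pool.Agent.Results.MP_08cfa9_nt.PlacesInShortIntervals
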