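import Pool.Agent.Run7.h736.LS.B3

/-!
# Generic cusp forms on the split group `PGSO(2,2) = PGL(2) × PGL(2)`

Let `Π = π_0 ⊗ π_1`, `π_0 ≠ π_1`, be an everywhere unramified cuspidal automorphic representation of the split
adjoint group `PGSO(2,2) = PGL(2) × PGL(2)` over `ℚ` (every such `Π` is globally generic). The Satake parameter at `p` is a
pair of elements of `SL(2, ℂ)`, with traces `λ_0(p)`, `λ_1(p)`. We bound the density, in every residue class, of the primes
at which no component of the Satake parameter is tempered.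

The functorial lifts `Sym^r π_i` (`r ≤ 4`), `π_0 ⊠ π_1`, `π_0 ⊠ Sym² π_1`, `π_1 ⊠ Sym² π_0` form an orthonormal system on
the primes of a residue class. The product of the two symmetric squares is not known to lift to `GL(9)`; but its mean
square, and its mean values with the functions of the system that are used here, are mean values of products of two
lifts, so that it can be added to the system.
-/

set_option autoImplicit false

namespace Pool.Agent.Results.MP_08cfa9_nt.SplitAdjointSOFour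

open Run7.h736.LS

theorem result (α : Fin 2 → Nat.Primes → ℂ) (hs : Satake α) (h : System (allTraces α))
    (q : ℕ) [NeZero q] (a : ZMod q) (ha : IsUnit a) :
    -- no component is tempered, with prescribed signs of the traces
    (∀ ε : Fin 2 → ℝ, (∀ i, ε i = 1 ∨ ε i = -1) →
      DensityLE {p | ((p : ℕ) : ZMod q) = a ∧ ∀ i, ‖α i p‖ ≠ 1 ∧ 0 < ε i * lam α i p} (1 / (q.totient * 228))) ∧
    -- no component is tempered, with prescribed sign of the product of the traces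
    (∀ ε : ℝ, (ε = 1 ∨ ε = -1) →
      DensityLE {p | ((p : ℕ) : ZMod q) = a ∧ (∀ i, ‖α i p‖ ≠ 1) ∧ 0 < ε * (lam α 0 p * lam α 1 p)}
        (1 / (q.totient * 116))) ∧
    -- no component is tempered
    DensityLE {p | ((p : ℕ) : ZMod q) = a ∧ ∀ i, ‖α i p‖ ≠ 1} (1 / (q.totient * 100)) ∧
    -- large traces
    ∀ T : Fin 2 → ℝ, (∀ i, 2 ≤ T i) →
      (∀ ε : Fin 2 → ℝ, (∀ i, ε i = 1 ∨ ε i = -1) →
        DensityLE {p | ((p : ℕ) : ZMod q) = a ∧ ∀ i, T i ≤ ε i * lam α i p}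
          (1 / (q.totient * (1 + T 0 ^ 2 + T 1 ^ 2 + (T 0 ^ 2 - 1) ^ 2 + (T 1 ^ 2 - 1) ^ 2 +
            (T 0 ^ 3 - 2 * T 0) ^ 2 + (T 1 ^ 3 - 2 * T 1) ^ 2 + (T 0 * T 1) ^ 2 + (T 0 * (T 1 ^ 2 - 1)) ^ 2 +
            (T 1 * (T 0 ^ 2 - 1)) ^ 2 + ((T 0 ^ 2 - 1) * (T 1 ^ 2 - 1)) ^ 2)))) ∧
      (∀ ε : ℝ, (ε = 1 ∨ ε = -1) →
        DensityLE {p | ((p : ℕ) : ZMod q) = a ∧ (∀ i, T i ≤ |lam α i p|) ∧ 0 < ε * (lam α 0 p * lam α 1 p)}
          (1 / (q.totient * (1 + (T 0 ^ 2 - 1) ^ 2 + (T 1 ^ 2 - 1) ^ 2 + (T 0 * T 1) ^ 2 +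
            ((T 0 ^ 2 - 1) * (T 1 ^ 2 - 1)) ^ 2)))) ∧
      DensityLE {p | ((p : ℕ) : ZMod q) = a ∧ ∀ i, T i ≤ |lam α i p|}
        (1 / (q.totient * ((1 + (T 0 ^ 2 - 1) ^ 2) * (1 + (T 1 ^ 2 - 1) ^ 2)))) := by
  refine ⟨fun ε hε => ?_, fun ε hε => ?_, ?_, fun T hT => ⟨fun ε hε => two_signs hs h ha hT hε,
    fun ε hε => two_product hs h ha hT hε, two_abs hs h ha hT⟩⟩
  · refine (two_signs hs h ha (T := fun _ => 2) (fun _ => le_rfl) hε).mono (fun p hp => ⟨hp.1, fun i => ?_⟩)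
      (le_of_eq (by norm_num))
    obtain ⟨h1, h2⟩ := hp.2 i
    have h3 := two_le_abs_lam hs h1
    show 2 ≤ ε i * lam α i p
    rcases hε i with h4 | h4
    · rw [h4, one_mul] at h2 ⊢
      rwa [abs_of_pos h2] at h3
    · rw [h4] at h2 ⊢
      rw [abs_of_neg (by linarith)] at h3
      linarith
  · exact (two_product hs h ha (T := fun _ => 2) (fun _ => le_rfl) hε).mono
      (fun p hp => ⟨hp.1, fun i => two_le_abs_lam hs (hp.2.1 i), hp.2.2⟩) (le_of_eq (by norm_num))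
  · exact (two_abs hs h ha (T := fun _ => 2) (fun _ => le_rfl)).mono
      (fun p hp => ⟨hp.1, fun i => two_le_abs_lam hs (hp.2 i)⟩) (le_of_eq (by norm_num))

end Pool.Agent.Results.MP_08cfa9_nt.SplitAdjointSOFour
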